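import Pool.Agent.Q35.ZC.Stm

/-! Job FAC of project ZC: the zeros of `g_x - Y`. -/

set_option autoImplicit false

open Polynomial Pool.Agent.Y720.MZ Pool.Agent.Q35.ZC

namespace Pool.Agent.Q65.ZC

lemma sq_sub' {F : Type} [Field F] (a0 a1 a2 c0 c1 c2 c3 c4 : F) :
    (C a0 + C a1 * X + C a2 * X ^ 2 : F[X]) ^ 2 -
      (C c0 + C c1 * X + C c2 * X ^ 2 + C c3 * X ^ 3 + C c4 * X ^ 4)
      = C (a0 ^ 2 - c0) + C (2 * a0 * a1 - c1) * X + C (2 * a0 * a2 + a1 ^ 2 - c2) * X ^ 2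
        + C (2 * a1 * a2 - c3) * X ^ 3 + C (a2 ^ 2 - c4) * X ^ 4 := by
  simp only [map_sub, map_add, map_mul, map_pow, map_ofNat]
  ring

lemma prod4' {F : Type} [Field F] (κ t1 t2 : F) :
    (C κ * X ^ 2 * (X - C t1) * (X - C t2) : F[X])
      = C 0 + C 0 * X + C (κ * t1 * t2) * X ^ 2 + C (-(κ * (t1 + t2))) * X ^ 3 + C κ * X ^ 4 := by
  simp only [map_neg, map_add, map_mul, map_zero]
  ring

lemma prod3' {F : Type} [Field F] (κ t1 : F) :
    (C κ * X ^ 2 * (X - C t1) : F[X])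
      = C 0 + C 0 * X + C (-(κ * t1)) * X ^ 2 + C κ * X ^ 3 + C 0 * X ^ 4 := by
  simp only [map_neg, map_mul, map_zero]
  ring

/-- Job FAC. -/
theorem fac : S_FAC := by
  intro F _ _ θ hw x y hE hx
  obtain ⟨w, c⟩ := θ
  simp only at hw
  have h2 : (2 : F) ≠ 0 := two_ne_zero
  set q1 := c 0 with hq1
  set q2 := c 1 with hq2
  set q3 := c 2 with hq3
  set q4 := c 3 with hq4
  have hE' : y ^ 2 = x ^ 3 + q2 * x ^ 2 + (q1 * q3 - 4 * w ^ 2 * q4) * x
      + (q1 ^ 2 * q4 + w ^ 2 * q3 ^ 2 - 4 * w ^ 2 * q2 * q4) := hE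
  have hx' : x ≠ q1 ^ 2 / (4 * w ^ 2) - q2 := hx
  have hN : 4 * w ^ 2 * (x + q2) - q1 ^ 2 ≠ 0 := by
    intro h
    apply hx'
    field_simp
    linear_combination h
  have hDD : (2 * w * y - q1 * x - 2 * w ^ 2 * q3) * (2 * w * (-y) - q1 * x - 2 * w ^ 2 * q3)
      = -((x ^ 2 - 4 * w ^ 2 * q4) * (4 * w ^ 2 * (x + q2) - q1 ^ 2)) := by
    linear_combination (-(4 * w ^ 2)) * hE'
  have hL : gp (w, c) x ^ 2 - Pool.Agent.Q35.ZC.qp (w, c) = C 0 + C 0 * X
      + C (q1 ^ 2 / (4 * w ^ 2) - x - q2) * X ^ 2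
      + C (-(q1 * x / (2 * w ^ 2)) - q3) * X ^ 3 + C (x ^ 2 / (4 * w ^ 2) - q4) * X ^ 4 := by
    unfold gp Pool.Agent.Q35.ZC.qp
    rw [sq_sub']
    have e0 : (-w) ^ 2 - w ^ 2 = 0 := by ring
    have e1 : 2 * (-w) * (-(c 0) / (2 * w)) - c 0 = 0 := by
      field_simp
      ring
    have e2 : 2 * (-w) * (x / (2 * w)) + (-(c 0) / (2 * w)) ^ 2 - c 1
        = q1 ^ 2 / (4 * w ^ 2) - x - q2 := by
      rw [hq1, hq2]
      field_simp
      ring
    have e3 : 2 * (-(c 0) / (2 * w)) * (x / (2 * w)) - c 2 = -(q1 * x / (2 * w ^ 2)) - q3 := by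
      rw [hq1, hq3]
      field_simp
    have e4 : (x / (2 * w)) ^ 2 - c 3 = x ^ 2 / (4 * w ^ 2) - q4 := by
      rw [hq4]
      field_simp
      ring
    simp only [e0, e1, e2, e3, e4]
  refine ⟨fun hD hD' => ?_, fun hD hy => ?_⟩
  · have hD1 : 2 * w * y - q1 * x - 2 * w ^ 2 * q3 ≠ 0 := hD
    have hD1' : 2 * w * (-y) - q1 * x - 2 * w ^ 2 * q3 ≠ 0 := hD'
    have hk : x ^ 2 - 4 * w ^ 2 * q4 ≠ 0 := by
      intro h
      rw [h, zero_mul, neg_zero] at hDD
      exact mul_ne_zero hD1 hD1' hDD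
    refine ⟨x ^ 2 / (4 * w ^ 2) - q4, ?_, ?_⟩
    · intro h
      apply hk
      field_simp at h
      linear_combination h
    · rw [hL, prod4']
      set D := 2 * w * y - q1 * x - 2 * w ^ 2 * q3 with hDdef
      set D' := 2 * w * (-y) - q1 * x - 2 * w ^ 2 * q3 with hDdef'
      set N := 4 * w ^ 2 * (x + q2) - q1 ^ 2 with hNdef
      have t1 : tq (w, c) x (-y) = N / D' := rfl
      have t2 : tq (w, c) x y = N / D := rfl
      have hw4 : (4 : F) * w ^ 2 ≠ 0 := mul_ne_zero (by norm_num) (pow_ne_zero _ hw)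
      have a2 : (x ^ 2 / (4 * w ^ 2) - q4) * tq (w, c) x (-y) * tq (w, c) x y
          = q1 ^ 2 / (4 * w ^ 2) - x - q2 := by
        rw [t1, t2]
        have : (x ^ 2 / (4 * w ^ 2) - q4) * (N / D') * (N / D)
            = (x ^ 2 - 4 * w ^ 2 * q4) * N * N / (4 * w ^ 2 * (D * D')) := by
          field_simp
        rw [this, hDD]
        have h5 : (x ^ 2 - 4 * w ^ 2 * q4) * N * N / (4 * w ^ 2 * -((x ^ 2 - 4 * w ^ 2 * q4) * N))
            = -(N / (4 * w ^ 2)) := by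
          field_simp
        rw [h5, hNdef]
        field_simp
        ring
      have a3 : -((x ^ 2 / (4 * w ^ 2) - q4) * (tq (w, c) x (-y) + tq (w, c) x y))
          = -(q1 * x / (2 * w ^ 2)) - q3 := by
        rw [t1, t2]
        have : (x ^ 2 / (4 * w ^ 2) - q4) * (N / D' + N / D)
            = (x ^ 2 - 4 * w ^ 2 * q4) * N * (D + D') / (4 * w ^ 2 * (D * D')) := by
          field_simp
        rw [this, hDD]
        have h5 : (x ^ 2 - 4 * w ^ 2 * q4) * N * (D + D')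
              / (4 * w ^ 2 * -((x ^ 2 - 4 * w ^ 2 * q4) * N))
            = -((D + D') / (4 * w ^ 2)) := by
          field_simp
        rw [h5, hDdef, hDdef']
        field_simp
        ring
      rw [a2, a3]
  · have hD1 : 2 * w * y - q1 * x - 2 * w ^ 2 * q3 = 0 := hD
    have hD1' : 2 * w * (-y) - q1 * x - 2 * w ^ 2 * q3 = -(4 * w * y) := by
      linear_combination hD1
    have hne : -(4 * w * y) ≠ 0 :=
      neg_ne_zero.2 (mul_ne_zero (mul_ne_zero (by norm_num) hw) hy)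
    have hxx : x ^ 2 = 4 * w ^ 2 * q4 := by
      rw [hD1, zero_mul] at hDD
      have h5 := neg_eq_zero.1 hDD.symm
      exact sub_eq_zero.1 ((mul_eq_zero.1 h5).resolve_right hN)
    refine ⟨?_, hxx, -y / w, div_ne_zero (neg_ne_zero.2 hy) hw, ?_⟩
    · show 2 * w * (-y) - q1 * x - 2 * w ^ 2 * q3 ≠ 0
      rw [hD1']
      exact hne
    · rw [hL, prod3']
      have t1 : tq (w, c) x (-y) = (4 * w ^ 2 * (x + q2) - q1 ^ 2)
          / (2 * w * (-y) - q1 * x - 2 * w ^ 2 * q3) := rfl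
      have a2 : -(-y / w * tq (w, c) x (-y)) = q1 ^ 2 / (4 * w ^ 2) - x - q2 := by
        rw [t1, hD1']
        field_simp
        ring
      have a3 : -(q1 * x / (2 * w ^ 2)) - q3 = -y / w := by
        field_simp
        linear_combination hD1
      have a4 : x ^ 2 / (4 * w ^ 2) - q4 = 0 := by
        rw [hxx]
        field_simp
        ring
      rw [a2, a3, a4]

end Pool.Agent.Q65.ZC
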